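import Mathlib
import Pool.Agent.Lib.MP_c5669f_al.Final

/-!
# The modular derivation of a polynomial Poisson algebra is a log-ozone derivation

Let `k` be a field of characteristic `p > 0` and let `P = k[x_1, ..., x_n]` be a polynomial
Poisson algebra. We show that there is a Poisson normal element `F` of `P` whose log-ozone
derivation is the modular derivation of `P`; in particular the modular derivation lies in the
log-ozone group of `P`.
-/

namespace Pool.Agent.Results.MP_c5669f_al.ModularDerivationLogOzone

open MvPolynomial

/-- A Poisson bracket on the polynomial algebra `k[x_1, ..., x_n]`: a `k`-bilinear Lie bracket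
for which each `{a, -}` is a derivation. -/
structure PoissonBracket (k : Type*) [Field k] (n : ℕ) where
  /-- the bracket `{a, b}`, as a `k`-bilinear map -/
  br : MvPolynomial (Fin n) k →ₗ[k] MvPolynomial (Fin n) k →ₗ[k] MvPolynomial (Fin n) k
  /-- the bracket is alternating -/
  alternating : ∀ a, br a a = 0
  /-- the Jacobi identity -/
  jacobi : ∀ a b c, br a (br b c) + br b (br c a) + br c (br a b) = 0
  /-- each `{a, -}` is a derivation -/
  leibniz : ∀ a b c, br a (b * c) = b * br a c + c * br a b

namespace PoissonBracket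

variable {k : Type*} [Field k] {n : ℕ} (B : PoissonBracket k n)

theorem anti (a b : MvPolynomial (Fin n) k) : B.br a b = - B.br b a :=
  Pool.Agent.Lib.MPc5669f.br_anti B.br B.alternating a b

/-- The modular derivation `φ(f) = ∑ j, ∂/∂x_j {x_j, f}`. -/
noncomputable def modular : Derivation k (MvPolynomial (Fin n) k) (MvPolynomial (Fin n) k) :=
  Derivation.mk' (∑ j, (pderiv j : Derivation k (MvPolynomial (Fin n) k)
      (MvPolynomial (Fin n) k)).toLinearMap ∘ₗ B.br (X j)) (by
    intro a b
    have h : ∀ x, (∑ j, (pderiv j : Derivation k (MvPolynomial (Fin n) k)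
        (MvPolynomial (Fin n) k)).toLinearMap ∘ₗ B.br (X j)) x
        = ∑ j, pderiv j (B.br (X j) x) := by
      intro x
      rw [LinearMap.sum_apply]; rfl
    rw [h, h, h]
    have h1 := Pool.Agent.Lib.MPc5669f.br_left B.br B.alternating B.leibniz a b
    have h2 := Pool.Agent.Lib.MPc5669f.br_left B.br B.alternating B.leibniz b a
    have h3 : ∑ j, pderiv j (B.br (X j) (a * b)) = (∑ j, (a * pderiv j (B.br (X j) b)
        + b * pderiv j (B.br (X j) a))) + (∑ j, pderiv j a * B.br (X j) b
        + ∑ j, pderiv j b * B.br (X j) a) := by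
      rw [← Finset.sum_add_distrib, ← Finset.sum_add_distrib]
      refine Finset.sum_congr rfl fun j _ => ?_
      rw [B.leibniz, map_add, pderiv_mul, pderiv_mul]
      ring
    rw [h3, ← h1, ← h2, B.anti a b, neg_add_cancel, add_zero, Finset.sum_add_distrib,
      ← Finset.mul_sum, ← Finset.mul_sum]
    rfl)

theorem modular_apply (f : MvPolynomial (Fin n) k) :
    B.modular f = ∑ j, pderiv j (B.br (X j) f) := by
  change (∑ j, (pderiv j : Derivation k (MvPolynomial (Fin n) k)
      (MvPolynomial (Fin n) k)).toLinearMap ∘ₗ B.br (X j)) f = _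
  rw [LinearMap.sum_apply]; rfl

/-- A nonzero `f` is Poisson normal if `{a, f}` is a multiple of `f` for each `a`. -/
def PoissonNormal (f : MvPolynomial (Fin n) k) : Prop :=
  f ≠ 0 ∧ ∀ a, f ∣ B.br a f

/-- `δ` is the log-ozone derivation of the Poisson normal element `f`, that is,
`δ(a) = f⁻¹ {a, f}` for each `a`. -/
def IsLogOzone (f : MvPolynomial (Fin n) k)
    (δ : Derivation k (MvPolynomial (Fin n) k) (MvPolynomial (Fin n) k)) : Prop :=
  B.PoissonNormal f ∧ ∀ a, f * δ a = B.br a f

/-- The log-ozone group: the additive group generated by all log-ozone derivations. -/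
noncomputable def loz : AddSubgroup (Derivation k (MvPolynomial (Fin n) k) (MvPolynomial (Fin n) k)) :=
  AddSubgroup.closure {δ | ∃ f, B.IsLogOzone f δ}

/-- Sanity check: each Poisson normal element has exactly one log-ozone derivation. -/
theorem existsUnique_isLogOzone (f : MvPolynomial (Fin n) k) (hf : B.PoissonNormal f) :
    ∃! δ, B.IsLogOzone f δ := by
  choose d hd using hf.2
  have hf0 := hf.1
  refine ⟨Derivation.mk'
    { toFun := d
      map_add' := fun a b => mul_left_cancel₀ hf0 (by
        rw [← hd, mul_add, ← hd, ← hd, map_add, LinearMap.add_apply])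
      map_smul' := fun c a => mul_left_cancel₀ hf0 (by
        rw [← hd, RingHom.id_apply, mul_smul_comm, ← hd, map_smul, LinearMap.smul_apply]) }
    (fun a b => mul_left_cancel₀ hf0 (by
      have h1 := hd a
      have h2 := hd b
      have h3 := hd (a * b)
      have h4 : B.br (a * b) f = a * B.br b f + b * B.br a f := by
        rw [B.anti, B.leibniz, B.anti f b, B.anti f a]; ring
      change f * d (a * b) = f * (a * d b + b * d a)
      rw [← h3, h4, h1, h2]; ring)), ⟨hf, fun a => (hd a).symm⟩, ?_⟩
  rintro δ ⟨-, hδ⟩
  ext i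
  apply congrArg
  apply mul_left_cancel₀ hf0
  rw [hδ]
  exact hd _

end PoissonBracket

/-- For each polynomial Poisson algebra over a field of positive characteristic, the modular
derivation is the log-ozone derivation of some Poisson normal element, and hence belongs to the
log-ozone group. -/
theorem result (k : Type*) [Field k] (p : ℕ) (hp : 0 < p) [CharP k p] (n : ℕ)
    (B : PoissonBracket k n) :
    (∃ F, B.IsLogOzone F B.modular) ∧ B.modular ∈ B.loz := by
  have hprime : Fact p.Prime :=
    ⟨(CharP.char_is_prime_or_zero k p).resolve_right hp.ne'⟩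
  have hjac : ∀ a b c, B.br a (B.br b c) = B.br (B.br a b) c + B.br b (B.br a c) := by
    intro a b c
    have h := B.jacobi a b c
    rw [B.anti c a, map_neg, B.anti c (B.br a b)] at h
    have h2 : B.br a (B.br b c) - (B.br (B.br a b) c + B.br b (B.br a c)) = 0 := by
      rw [← h]; abel
    exact sub_eq_zero.mp h2
  obtain ⟨F, hF0, hF⟩ := Pool.Agent.Lib.MPc5669f.exists_normal B.br p B.alternating hjac B.leibniz
  have h1 : B.IsLogOzone F B.modular := by
    refine ⟨⟨hF0, fun a => ⟨_, hF a⟩⟩, fun a => ?_⟩
    rw [B.modular_apply]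
    exact (hF a).symm
  exact ⟨⟨F, h1⟩, AddSubgroup.subset_closure ⟨F, h1⟩⟩

end Pool.Agent.Results.MP_c5669f_al.ModularDerivationLogOzone
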